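import Mathlib
import Pool.Agent.Y859.SF.Stm

/-!
# Few prime factors for almost all `m` (job SF-S4)
-/

set_option autoImplicit false

namespace Pool.Agent.Y79.SF

theorem sum_div (M : ℕ) :
    (∑ n ∈ Finset.Ioc 0 M, ((n.divisors.card : ℕ) : ℝ)) ≤ M * (1 + Real.log M) := by
  have h := ArithmeticFunction.sum_Ioc_sigma0_eq_sum_div M
  simp only [ArithmeticFunction.sigma_zero_apply] at h
  have h1 : (∑ n ∈ Finset.Ioc 0 M, ((n.divisors.card : ℕ) : ℝ)) =
      ((∑ n ∈ Finset.Ioc 0 M, (M / n) : ℕ) : ℝ) := by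
    rw [← h]; push_cast; rfl
  rw [h1]
  have h2 : ((∑ n ∈ Finset.Ioc 0 M, (M / n) : ℕ) : ℝ) ≤ M * ((harmonic M : ℚ) : ℝ) := by
    rw [harmonic_eq_sum_Icc]
    push_cast
    rw [Finset.mul_sum]
    have e : Finset.Ioc 0 M = Finset.Icc 1 M := rfl
    rw [e]
    apply Finset.sum_le_sum
    intro i _
    rw [← div_eq_mul_inv]
    exact Nat.cast_div_le
  refine h2.trans (mul_le_mul_of_nonneg_left ?_ (Nat.cast_nonneg _))
  exact harmonic_le_one_add_log M

theorem two_pow_le {n : ℕ} (hn : n ≠ 0) : 2 ^ n.primeFactors.card ≤ n.divisors.card := by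
  rw [Nat.card_divisors hn]
  apply Finset.pow_card_le_prod
  intro p hp
  have := (Nat.prime_of_mem_primeFactors hp).factorization_pos_of_dvd hn
    (Nat.dvd_of_mem_primeFactors hp)
  omega

/-- Markov's inequality for the number of divisors. -/
theorem markov (M : ℕ) (K : ℝ) :
    (((Finset.Ioc 0 M).filter (fun n => K < (n.divisors.card : ℝ))).card : ℝ) * K ≤
      M * (1 + Real.log M) := by
  refine le_trans ?_ (sum_div M)
  rw [← nsmul_eq_mul]
  refine le_trans (Finset.card_nsmul_le_sum _ (fun n => ((n.divisors.card : ℕ) : ℝ)) K ?_) ?_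
  · intro x hx
    exact (Finset.mem_filter.1 hx).2.le
  · exact Finset.sum_le_sum_of_subset_of_nonneg (Finset.filter_subset _ _)
      (fun _ _ _ => Nat.cast_nonneg _)

/-- The exceptional set. -/
noncomputable def bad (h N : ℕ) (K : ℝ) : Finset ℕ :=
  (Finset.Ioc N (2 * N)).filter (fun m => ∃ i < h, K < ((m - i).divisors.card : ℝ))

theorem card_bad (h N : ℕ) {K : ℝ} (hK : 0 < K) (hN : h ≤ N) :
    ((bad h N K).card : ℝ) * K ≤ h * ((2 * N : ℕ) * (1 + Real.log (2 * N : ℕ))) := by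
  classical
  have h1 : bad h N K ⊆ (Finset.range h).biUnion (fun i =>
      ((Finset.Ioc 0 (2 * N)).filter (fun n => K < (n.divisors.card : ℝ))).image (fun n => n + i)) := by
    intro m hm
    obtain ⟨hm1, i, hi, hm2⟩ := Finset.mem_filter.1 hm
    rw [Finset.mem_Ioc] at hm1
    rw [Finset.mem_biUnion]
    refine ⟨i, Finset.mem_range.2 hi, Finset.mem_image.2 ⟨m - i, ?_, by omega⟩⟩
    rw [Finset.mem_filter, Finset.mem_Ioc]
    exact ⟨by omega, hm2⟩
  have h2 : (bad h N K).card ≤ h *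
      ((Finset.Ioc 0 (2 * N)).filter (fun n => K < (n.divisors.card : ℝ))).card := by
    refine (Finset.card_le_card h1).trans (Finset.card_biUnion_le.trans ?_)
    refine (Finset.sum_le_card_nsmul _ _ _ (fun i _ => Finset.card_image_le)).trans ?_
    rw [Finset.card_range, smul_eq_mul]
  have h3 := markov (2 * N) K
  have h4 : ((bad h N K).card : ℝ) ≤ h *
      (((Finset.Ioc 0 (2 * N)).filter (fun n => K < (n.divisors.card : ℝ))).card : ℝ) := by
    exact_mod_cast h2
  calc ((bad h N K).card : ℝ) * K ≤ (h *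
      (((Finset.Ioc 0 (2 * N)).filter (fun n => K < (n.divisors.card : ℝ))).card : ℝ)) * K :=
        mul_le_mul_of_nonneg_right h4 hK.le
    _ = h * ((((Finset.Ioc 0 (2 * N)).filter (fun n => K < (n.divisors.card : ℝ))).card : ℝ) * K) := by
        ring
    _ ≤ _ := mul_le_mul_of_nonneg_left h3 (Nat.cast_nonneg _)

open Pool.Agent.Y859.SF

theorem factorial_eq_blk {A B : ℕ} (h : A ≤ B) : B.factorial = A.factorial * blk A B := by
  induction B, h using Nat.le_induction with
  | base => simp [blk]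
  | succ n hn ih =>
    have : blk A (n + 1) = blk A n * (n + 1) := by
      rw [blk, blk, ← Finset.insert_Ioc_right_eq_Ioc_add_one hn, Finset.prod_insert (by simp)]
      ring
    rw [Nat.factorial_succ, ih, this]
    ring

theorem blk_ne_zero (A B : ℕ) : blk A B ≠ 0 := by
  rw [blk, Finset.prod_ne_zero_iff]
  intro a ha
  have := Finset.mem_Ioc.1 ha
  omega

theorem odd_dvd {m b y y' p : ℕ} (h : Rep m b y y') (hp : p.Prime)
    (ho : Odd ((blk y' y).factorization p)) : p ∣ blk b m := by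
  obtain ⟨h1, h2, h3, r, hr⟩ := h
  have e1 := factorial_eq_blk h3.le
  have e2 := factorial_eq_blk h1
  rw [e1, e2] at hr
  have n1 := blk_ne_zero b m
  have n2 := blk_ne_zero y' y
  have n3 : b.factorial ≠ 0 := Nat.factorial_ne_zero _
  have n4 : y'.factorial ≠ 0 := Nat.factorial_ne_zero _
  have hr0 : r ≠ 0 := by
    rintro rfl
    simp [n1, n2, n3, n4] at hr
  have h4 := congrArg (fun t : ℕ => t.factorization p) hr
  rw [Nat.factorization_mul (by positivity) n4, Nat.factorization_mul (by positivity)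
    (by positivity), Nat.factorization_mul (by positivity) n3,
    Nat.factorization_mul n3 n1, Nat.factorization_mul n4 n2,
    Nat.factorization_mul hr0 hr0] at h4
  simp only [Finsupp.add_apply] at h4
  by_contra h5
  rw [Nat.factorization_eq_zero_of_not_dvd h5] at h4
  obtain ⟨u, hu⟩ := ho
  omega

theorem card_le {h m b : ℕ} {L : ℝ} (hm : m - b < h) (hbm : b < m) (hL : 1 ≤ L)
    (hd : ∀ i < h, ((m - i).divisors.card : ℝ) ≤ L ^ 2) {P : Finset ℕ}
    (hP : ∀ p ∈ P, p.Prime ∧ p ∣ blk b m) : (P.card : ℝ) ≤ 4 * h * Real.log L := by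
  classical
  have h1 : P ⊆ (Finset.Ioc b m).biUnion (fun j => j.primeFactors) := by
    intro p hp
    obtain ⟨h2, h3⟩ := hP p hp
    rw [blk, h2.prime.dvd_finsetProd_iff] at h3
    obtain ⟨j, hj, hpj⟩ := h3
    rw [Finset.mem_biUnion]
    have := Finset.mem_Ioc.1 hj
    exact ⟨j, hj, Nat.mem_primeFactors.2 ⟨h2, hpj, by omega⟩⟩
  have hl0 : 0 ≤ Real.log L := Real.log_nonneg hL
  have h2 : ∀ j ∈ Finset.Ioc b m, ((j.primeFactors.card : ℕ) : ℝ) ≤ 4 * Real.log L := by
    intro j hj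
    have hj' := Finset.mem_Ioc.1 hj
    have h3 := hd (m - j) (by omega)
    have e : m - (m - j) = j := by omega
    rw [e] at h3
    have h4 : ((2 : ℝ) ^ j.primeFactors.card) ≤ L ^ 2 := by
      refine le_trans ?_ h3
      exact_mod_cast two_pow_le (by omega : j ≠ 0)
    have h5 := Real.log_le_log (by positivity) h4
    rw [Real.log_pow, Real.log_pow] at h5
    push_cast at h5
    have h6 : (1 : ℝ) / 2 ≤ Real.log 2 := by
      have := Real.log_two_gt_d9
      linarith
    have h7 : (0 : ℝ) ≤ (j.primeFactors.card : ℝ) := Nat.cast_nonneg _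
    nlinarith
  have h3 : (P.card : ℝ) ≤ ∑ j ∈ Finset.Ioc b m, ((j.primeFactors.card : ℕ) : ℝ) := by
    have := (Finset.card_le_card h1).trans Finset.card_biUnion_le
    exact_mod_cast this
  refine h3.trans ((Finset.sum_le_card_nsmul _ _ _ h2).trans ?_)
  rw [Nat.card_Ioc, nsmul_eq_mul]
  have h4 : ((m - b : ℕ) : ℝ) ≤ h := by exact_mod_cast hm.le
  nlinarith

theorem t_S4 (he : S_ES) : S_S4 := by
  obtain ⟨c, hc, s₀, hES⟩ := he
  intro h ε hε
  -- the thresholds
  have ev1 : ∀ᶠ L : ℝ in Filter.atTop, 8 * h * Real.log L < c * L ^ (1 / 8 : ℝ) := by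
    have h1 := (isLittleO_log_rpow_atTop (r := 1 / 8) (by norm_num)).bound
      (c := c / (8 * h + 8)) (by positivity)
    filter_upwards [h1, Filter.eventually_gt_atTop 1] with L hL hL1
    have hp : 0 < L ^ (1 / 8 : ℝ) := Real.rpow_pos_of_pos (by linarith) _
    have hl : 0 < Real.log L := Real.log_pos hL1
    rw [Real.norm_of_nonneg hl.le, Real.norm_of_nonneg hp.le, div_mul_eq_mul_div,
      le_div_iff₀ (by positivity)] at hL
    nlinarith
  have ev : ∀ᶠ L : ℝ in Filter.atTop, 8 * h * Real.log L < c * L ^ (1 / 8 : ℝ) ∧ 16 ≤ L ∧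
      ((s₀ : ℝ) ^ 4) ≤ L ∧ 6 * h / ε ≤ L := by
    filter_upwards [ev1, Filter.eventually_ge_atTop 16, Filter.eventually_ge_atTop ((s₀ : ℝ) ^ 4),
      Filter.eventually_ge_atTop (6 * h / ε)] with L h1 h2 h3 h4
    exact ⟨h1, h2, h3, h4⟩
  have evN : ∀ᶠ N : ℕ in Filter.atTop, (8 * h * Real.log (Real.log N) <
      c * (Real.log N) ^ (1 / 8 : ℝ) ∧ 16 ≤ Real.log N ∧
      ((s₀ : ℝ) ^ 4) ≤ Real.log N ∧ 6 * h / ε ≤ Real.log N) ∧ h ≤ N := by
    exact ((Real.tendsto_log_atTop.comp tendsto_natCast_atTop_atTop).eventually ev).and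
      (Filter.eventually_ge_atTop h)
  obtain ⟨N₀, hN₀⟩ := Filter.eventually_atTop.1 evN
  refine ⟨N₀ + 1, fun N hN => ?_⟩
  obtain ⟨⟨g1, g2, g3, g4⟩, g5⟩ := hN₀ N (by omega)
  set L := Real.log N with hLdef
  have hN0 : 0 < (N : ℝ) := by
    have : 0 < N := by omega
    exact_mod_cast this
  have hL2 : 0 < L ^ 2 := by positivity
  refine ⟨bad h N (L ^ 2), ?_, ?_⟩
  · have h1 := card_bad h N hL2 g5
    have h2 : Real.log ((2 * N : ℕ) : ℝ) ≤ 1 + L := by
      push_cast
      rw [Real.log_mul (by norm_num) hN0.ne']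
      have := Real.log_two_lt_d9
      linarith
    have h3 : ((bad h N (L ^ 2)).card : ℝ) * L ^ 2 ≤ (ε * N) * L ^ 2 := by
      refine h1.trans ?_
      rw [div_le_iff₀ hε] at g4
      have h4 : (h : ℝ) * (((2 * N : ℕ) : ℝ) * (1 + Real.log ((2 * N : ℕ) : ℝ))) ≤
          h * (((2 * N : ℕ) : ℝ) * (1 + (1 + L))) := by
        gcongr
      refine h4.trans ?_
      push_cast
      have h5 : 1 + (1 + L) ≤ 3 * L := by linarith
      have h6 : (h : ℝ) * (2 * N * (1 + (1 + L))) ≤ h * (2 * N * (3 * L)) := by gcongr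
      refine h6.trans ?_
      have h7 : (h : ℝ) * (2 * N * (3 * L)) = (6 * h) * (N * L) := by ring
      rw [h7]
      have h8 : (ε * N) * L ^ 2 = (L * ε) * (N * L) := by ring
      rw [h8]
      exact mul_le_mul_of_nonneg_right g4 (by positivity)
    exact le_of_mul_le_mul_right h3 hL2
  · rintro m hm1 hm2 ⟨b, y, y', hR, ht, hs⟩
    by_contra hb
    have hd : ∀ i < h, ((m - i).divisors.card : ℝ) ≤ L ^ 2 := by
      intro i hi
      by_contra h1
      push Not at h1
      exact hb (Finset.mem_filter.2 ⟨Finset.mem_Ioc.2 ⟨hm1, hm2⟩, i, hi, h1⟩)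
    set s := y - y' with hsd
    have hy : y = y' + s := by have := hR.1; omega
    have hNm : L ≤ Real.log m := Real.log_le_log hN0 (by exact_mod_cast hm1.le)
    have hs4 : L < (s : ℝ) ^ 4 := lt_of_le_of_lt hNm hs
    have hs0 : s₀ ≤ s := by
      by_contra h1
      push Not at h1
      have h2 : (s : ℝ) ^ 4 ≤ (s₀ : ℝ) ^ 4 := by
        have : (s : ℝ) ≤ s₀ := by exact_mod_cast h1.le
        gcongr
      linarith
    have hs2 : 2 < s := by
      by_contra h1
      push Not at h1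
      have h2 : (s : ℝ) ^ 4 ≤ (2 : ℝ) ^ 4 := by
        have : (s : ℝ) ≤ 2 := by exact_mod_cast h1
        gcongr
      norm_num at h2
      linarith
    obtain ⟨P, hP1, hP2⟩ := hES y' s hs0
    rw [← hy] at hP1
    have hcard := card_le ht hR.2.2.1 (by linarith) hd (P := P)
      (fun p hp => ⟨(hP1 p hp).1, odd_dvd hR (hP1 p hp).1 (hP1 p hp).2⟩)
    have hsR : (2 : ℝ) < s := by exact_mod_cast hs2
    have hls : 0 < Real.log s := Real.log_pos (by linarith)
    have h1 : c * s / Real.log s ≤ 4 * h * Real.log L := hP2.trans hcard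
    rw [div_le_iff₀ hls] at h1
    have h2 : Real.log s ≤ (s : ℝ) ^ (1 / 2 : ℝ) / (1 / 2) :=
      Real.log_le_rpow_div (by linarith) (by norm_num)
    have hL0 : 0 ≤ Real.log L := Real.log_nonneg (by linarith)
    set q := (s : ℝ) ^ (1 / 2 : ℝ) with hq
    have hq0 : 0 < q := Real.rpow_pos_of_pos (by linarith) _
    have hqq : q * q = s := by
      rw [hq, ← Real.rpow_add (by linarith)]
      norm_num
    have h3 : c * s ≤ 4 * h * Real.log L * (2 * q) := by
      refine h1.trans (mul_le_mul_of_nonneg_left ?_ (by positivity))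
      linarith
    have h4 : c * q ≤ 8 * h * Real.log L := by
      rw [← hqq] at h3
      have h5 : (c * q) * q ≤ (8 * h * Real.log L) * q := by linarith
      exact le_of_mul_le_mul_right h5 hq0
    have h5 : L ^ (1 / 8 : ℝ) ≤ q := by
      have h6 : L ^ (1 / 8 : ℝ) ≤ ((s : ℝ) ^ 4) ^ (1 / 8 : ℝ) :=
        Real.rpow_le_rpow (by linarith) hs4.le (by norm_num)
      refine h6.trans (le_of_eq ?_)
      rw [hq, ← Real.rpow_natCast, ← Real.rpow_mul (by linarith)]
      norm_num
    have h6 : c * L ^ (1 / 8 : ℝ) ≤ c * q := mul_le_mul_of_nonneg_left h5 hc.le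
    linarith

end Pool.Agent.Y79.SF
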